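import Pool.Agent.Helper61.FN.GoalsC
import Pool.Agent.Helper61.FN.Tools

/-!
# Project FN (MP_06d934_gt): goal FN-C0C
-/

set_option autoImplicit false

namespace Pool.Agent.Helper71.FN

open Pool.Agent.Helper61.FN Finset

/-- One of three terms with signs vanishes together with the others. -/
theorem three {k : Type} [Field k] {Y : Fin 20 → k} {g : Fin 20 → ℤ}
    (hz : ∀ j, g j ≠ 0 → Y j = 0) (hn : ∀ j, g j = 0 → Y j ≠ 0) (a b c : Fin 20) {s t u : k}
    (hs : s ≠ 0) (ht : t ≠ 0) (hu : u ≠ 0) (hab : g a + g b < 0) (hac : g a + g c < 0)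
    (hbc : g b + g c < 0) (h : s * Y a + t * Y b + u * Y c = 0) :
    g a ≠ 0 ∧ g b ≠ 0 ∧ g c ≠ 0 := by
  refine ⟨fun h0 ↦ ?_, fun h0 ↦ ?_, fun h0 ↦ ?_⟩
  · rw [hz b (by omega), hz c (by omega)] at h
    simp only [mul_zero, add_zero] at h
    exact mul_ne_zero hs (hn a h0) h
  · rw [hz a (by omega), hz c (by omega)] at h
    simp only [mul_zero, add_zero, zero_add] at h
    exact mul_ne_zero ht (hn b h0) h
  · rw [hz a (by omega), hz b (by omega)] at h
    simp only [mul_zero, zero_add] at h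
    exact mul_ne_zero hu (hn c h0) h

theorem goalC0C : G_C0C := by
  intro F k _ _ _ _ _ p q mu ep lam v M ξ h hpos
  by_contra hcon
  rw [not_or] at hcon
  obtain ⟨hc1, hc2⟩ := hcon
  obtain ⟨-, -, -, t1, t2, -, -⟩ := h.tri
  have p0 := hpos 0
  have p1 := hpos 1
  have p2 := hpos 2
  have p3 := hpos 3
  have p4 := hpos 4
  have p5 := hpos 5
  have hp : 0 < p := lt_of_lt_of_le one_pos h.par.p1
  have hq : 0 < q := lt_of_lt_of_le one_pos h.par.q1
  have hmu := h.par.mu0
  have hph := h.par.ph0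
  have hch := h.par.ch0
  have hcj : ∀ j, 6 ≤ j.val → cC p q mu ep j ≠ 0 := by
    intro j hj
    have a1 : p * q * mu ≠ 0 := by positivity
    have a2 : p * (p + ep) * mu ≠ 0 := by positivity
    have a3 : q * (q + ep) * mu ≠ 0 := by positivity
    have a4 : p * q * (p + ep) ≠ 0 := by positivity
    have a5 : p * q * (q + ep) ≠ 0 := by positivity
    have two : (2 : F) ≠ 0 := two_ne_zero
    fin_cases j
    iterate 6 exact absurd hj (by decide)
    iterate 6 exact neg_ne_zero.2 a1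
    · exact div_ne_zero (neg_ne_zero.2 a2) two
    · exact div_ne_zero (neg_ne_zero.2 a3) two
    iterate 3 exact neg_ne_zero.2 a4
    iterate 3 exact neg_ne_zero.2 a5
  have hg : ∀ j, gr (mC j) v = mC j 0 * v 0 + mC j 1 * v 1 + mC j 2 * v 2 + mC j 3 * v 3 +
      mC j 4 * v 4 + mC j 5 * v 5 := fun j ↦ gr6 _ _
  obtain ⟨Y, hY⟩ : ∃ Y : Fin 20 → k, Y = fun j ↦
      if gr (mC j) v = 0 then algebraMap F k (cC p q mu ep j) * mon ξ (mC j) else 0 := ⟨_, rfl⟩
  have hz : ∀ j, gr (mC j) v ≠ 0 → Y j = 0 := by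
    intro j hj
    rw [hY]
    simp only [if_neg hj]
  have hg' : ∀ j, j.val < 6 → gr (mC j) v ≠ 0 := by
    intro j hj
    rw [hg]
    fin_cases j <;> simp [mC] <;> first | omega | exact absurd hj (by decide)
  have hn : ∀ j, gr (mC j) v = 0 → Y j ≠ 0 := by
    intro j hj
    rw [hY]
    simp only [if_pos hj]
    refine mul_ne_zero (am_ne (hcj j ?_)) (mon_ne h.nrm.ne _)
    by_contra hlt
    exact hg' j (not_le.1 hlt) hj
  have h12 : gr (mC 12) v ≠ 0 := by
    rw [hg]
    simp [mC]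
    omega
  have h13 : gr (mC 13) v ≠ 0 := by
    rw [hg]
    simp [mC]
    omega
  have e : ∀ e, ∑ j, (mC j e : k) * Y j = 0 := by
    intro e
    rw [hY]
    exact h.nrm.ld0 e
  have e2 := e 2
  have e3 := e 3
  have e0 := e 0
  have e1 := e 1
  simp [Fin.sum_univ_succ, mC] at e0 e1 e2 e3
  have y0 := hz 0 (hg' 0 (by decide))
  have y1 := hz 1 (hg' 1 (by decide))
  have y2 := hz 2 (hg' 2 (by decide))
  have y3 := hz 3 (hg' 3 (by decide))
  have y12 := hz 12 h12
  have y13 := hz 13 h13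
  have gs : ∀ a b, gr (mC a) v + gr (mC b) v = (mC a 0 + mC b 0) * v 0 + (mC a 1 + mC b 1) * v 1 +
      (mC a 2 + mC b 2) * v 2 + (mC a 3 + mC b 3) * v 3 + (mC a 4 + mC b 4) * v 4 +
      (mC a 5 + mC b 5) * v 5 := by
    intro a b
    rw [hg, hg]
    ring
  obtain ⟨z14, z15, z16⟩ := three hz hn 14 15 16 (s := 1) (t := -1) (u := -1) one_ne_zero
    (neg_ne_zero.2 one_ne_zero) (neg_ne_zero.2 one_ne_zero)
    (by rw [gs]; simp [mC]; omega) (by rw [gs]; simp [mC]; omega) (by rw [gs]; simp [mC]; omega)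
    (by linear_combination e2 + y2 - y12)
  obtain ⟨z17, z18, z19⟩ := three hz hn 17 18 19 (s := 1) (t := -1) (u := -1) one_ne_zero
    (neg_ne_zero.2 one_ne_zero) (neg_ne_zero.2 one_ne_zero)
    (by rw [gs]; simp [mC]; omega) (by rw [gs]; simp [mC]; omega) (by rw [gs]; simp [mC]; omega)
    (by linear_combination e3 + y3 - y13)
  have y14 := hz 14 z14
  have y15 := hz 15 z15
  have y16 := hz 16 z16
  have y17 := hz 17 z17
  have y18 := hz 18 z18
  have y19 := hz 19 z19
  obtain ⟨z6, z7, z8⟩ := three hz hn 6 7 8 (s := 1) (t := -1) (u := -1) one_ne_zero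
    (neg_ne_zero.2 one_ne_zero) (neg_ne_zero.2 one_ne_zero)
    (by rw [gs]; simp [mC]; omega) (by rw [gs]; simp [mC]; omega) (by rw [gs]; simp [mC]; omega)
    (by linear_combination e0 + y0 + y14 - y15 + y16 + y17 - y18 + y19)
  obtain ⟨z9, z10, z11⟩ := three hz hn 9 10 11 (s := 1) (t := -1) (u := -1) one_ne_zero
    (neg_ne_zero.2 one_ne_zero) (neg_ne_zero.2 one_ne_zero)
    (by rw [gs]; simp [mC]; omega) (by rw [gs]; simp [mC]; omega) (by rw [gs]; simp [mC]; omega)
    (by linear_combination e1 + y1 + y14 + y15 - y16 + y17 + y18 - y19)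
  obtain ⟨j, hj⟩ := h.nrm.ex
  fin_cases j
  · exact hg' 0 (by decide) hj
  · exact hg' 1 (by decide) hj
  · exact hg' 2 (by decide) hj
  · exact hg' 3 (by decide) hj
  · exact hg' 4 (by decide) hj
  · exact hg' 5 (by decide) hj
  · exact z6 hj
  · exact z7 hj
  · exact z8 hj
  · exact z9 hj
  · exact z10 hj
  · exact z11 hj
  · exact h12 hj
  · exact h13 hj
  · exact z14 hj
  · exact z15 hj
  · exact z16 hj
  · exact z17 hj
  · exact z18 hj
  · exact z19 hj

end Pool.Agent.Helper71.FN
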